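import Pool.Agent.W896.FD.Tri

/-!
# Triangle-freeness needs many reads or much memory

We consider Boolean circuits with AND gates of fan-in two, OR gates of any fan-in and negations at
the inputs, whose inputs are the bits of the adjacency matrix of a graph with `n` vertices. Such a
circuit accepts if and only if it has a proof tree all of whose leaves are true literals; the formal
degree in an input bit is the largest number of leaves with this bit, that is, the number of times
this bit is read. Nondeterministic, in particular deterministic, branching programs are such
circuits (the logarithm of the size is the memory, and a bit which is read at most `k` times on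
every path has degree at most `k`), and so are programs with a stack.

The circuits have to recognise the triangle-free graphs. If the total formal degree is at most
`k n ^ 2`, i.e. linear in the number of the input bits, then the size is `2 ^ Ω (n)`. So algorithms
of this kind with a memory of `o (n)` bits need superlinear reading time, and with a memory of
`O (log n)` bits they need `Ω (n ^ 2 log n)` reads. This holds even if the condition on the degrees
is only required at a single vertex `u`: if the degrees in the bits of the pairs at `u` sum up to at
most `k n` then the size is `2 ^ Ω (n)`, and this remains true for circuits with one-sided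
randomness, which find out only with probability `2 ^ (- n / D)` that a graph is triangle-free.

For the freeness from complete graphs with four vertices Jukna and Schnitger (Triangle-freeness is
hard to detect, 2002) proved such bounds for nondeterministic read-`k` programs; there one can use
disjoint edges. For triangles their bound is for communication protocols with many partitions
(one read). The difficulty with triangles is that a program which reads the matrix row by row reads
each bit only twice but any two adjacent edges together, so that adjacent edges cannot be separated
by cutting the program into a few pieces. We use a star whose centre is a vertex of small degree and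
a matching on the other vertices which is placed at random; it is the two rays to a matched pair
that are separated.
-/

set_option autoImplicit false

namespace Pool.Agent.Results.MP_ad5e8e_lc.FormalDegree

open Pool.Agent.W896.RK Pool.Agent.W896.FD Pool.Agent.W896.FD.Tri

/-- 1. Let `u` be a vertex and `U r` (`r` in a finite nonempty set) circuits on the bits of a graph
with `n` vertices, none of which accepts a graph with a triangle, such that every triangle-free
graph is accepted by at least a `2 ^ (- ⌊n / 2 ^ (60 (k + 3))⌋)` fraction of them. If in each `U r`
the formal degrees in the bits of the pairs that contain `u` sum up to at most `k n`, then some `U r`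
has `g` gates with `n ≤ 2 ^ (60 (k + 3)) (⌊log₂ g⌋ + 1)`.

2. If a circuit accepts exactly the triangle-free graphs with `n` vertices and its formal degrees in
all bits sum up to at most `k n ^ 2` then it has `g` gates with
`n ≤ 2 ^ (60 (2 k + 3)) (⌊log₂ g⌋ + 1)`. -/
theorem result (k n : ℕ) :
    (∀ (u : Fin n) (R : Type) [Fintype R] [Nonempty R] (U : R → Circ (Sym2 (Fin n))),
      (∀ r G, (U r).Val (bits G) (U r).out → G.CliqueFree 3) →
      (∀ G : SimpleGraph (Fin n), G.CliqueFree 3 →
        Nat.card R ≤ 2 ^ (n / 2 ^ (60 * (k + 3))) *
          Nat.card {r // (U r).Val (bits G) (U r).out}) →
      (∀ r, ∃ d : (U r).G → Sym2 (Fin n) → ℕ, IsDeg (U r) id d ∧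
        ∑ v, d (U r).out s(u, v) ≤ k * n) →
      ∃ r, n ≤ 2 ^ (60 * (k + 3)) * (Nat.log 2 (Fintype.card (U r).G) + 1)) ∧
    ∀ U : Circ (Sym2 (Fin n)), (∀ G, U.Val (bits G) U.out ↔ G.CliqueFree 3) →
      (∃ d : U.G → Sym2 (Fin n) → ℕ, IsDeg U id d ∧ ∑ e, d U.out e ≤ k * n ^ 2) →
      n ≤ 2 ^ (60 * (2 * k + 3)) * (Nat.log 2 (Fintype.card U.G) + 1) :=
  ⟨fun u _ _ _ U hU hc hd => tri_vertex k n u _ U hU hc hd, fun U hU hd => tri_total k n U hU hd⟩

end Pool.Agent.Results.MP_ad5e8e_lc.FormalDegree
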