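import Mathlib
import Pool.Agent.W964.Wd.Td.Main

/-!
Triangle detection in graphs with `s` edges and vertices needs `s ^ (4 / 3 - o(1))` processors on
ideal parallel machines with running time `o(log s / log log s)`.
-/

namespace Pool.Agent.Results.MP_ad5e8e_lc.ParallelMachines

open Pool.Agent.W964.Wd Finset

open Classical in
theorem result (ε : ℝ) (hε : 0 < ε) (hε1 : ε ≤ 1 / 3) (K : ℕ) :
    ∃ δ : ℝ, 0 < δ ∧ ∃ g₀ : ℕ, ∀ g : ℕ, g₀ ≤ g →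
      ∃ (Ξ : Type) (_ : Fintype Ξ) (μ : Ξ → ℝ)
        (x x' : Ξ → (Fin 3 × (Fin g × Fin g)) → ℕ × ℕ),
        (∀ ξ, 0 ≤ μ ξ) ∧ ∑ ξ, μ ξ = 1 ∧
        (∀ ξ, μ ξ ≠ 0 → EdgeList (5 * g ^ 2) (x ξ) ∧ ¬ HasTriangle (x ξ) ∧
          EdgeList (5 * g ^ 2) (x' ξ) ∧ HasTriangle (x' ξ)) ∧
        ∀ T P : ℕ, 1 ≤ T → T * Real.log (Real.log g) ≤ δ * Real.log g →
          (P : ℝ) ≤ ((g : ℝ) ^ 2) ^ (4 / 3 - ε) →
          (∀ M : Machine (ℕ × ℕ) (Fin 3 × (Fin g × Fin g)) P, M.Lists (g ^ K) →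
            ∑ ξ, μ ξ * (if M.result T (x ξ) ≠ M.result T (x' ξ) then (1 : ℝ) else 0) ≤
              (g : ℝ) ^ (-(ε / 3))) ∧
          (∀ R : RandMachine (ℕ × ℕ) (Fin 3 × (Fin g × Fin g)) P, R.Lists (g ^ K) →
            ∃ z : Fin 3 × (Fin g × Fin g) → ℕ × ℕ, EdgeList (5 * g ^ 2) z ∧
              R.success T z (HasTriangle z) ≤ 1 / 2 + (g : ℝ) ^ (-(ε / 3))) := by
  obtain ⟨δ, hδ, g₀, h⟩ := tri_core ε hε hε1 K
  refine ⟨δ, hδ, g₀, fun g hg => ?_⟩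
  obtain ⟨Ξ, fΞ, μ, x, x', h0, h1, h2, h3⟩ := h g hg
  refine ⟨Ξ, fΞ, μ, x, x', h0, h1, h2, fun T P hT hTg hP => ⟨fun M hM => ?_, fun R hR => ?_⟩⟩
  · exact h3 T P hT hTg hP M hM
  · exact rand_pairs R T μ h0 h1 x x' (EdgeList (5 * g ^ 2)) HasTriangle h2 (by positivity)
      (fun ω => h3 T P hT hTg hP (R.mach ω) (hR ω))

end Pool.Agent.Results.MP_ad5e8e_lc.ParallelMachines
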